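import Mathlib
import Pool.Agent.Helper28.MT.Goals2

/-!
# Project MT2 (MP_bb782b_co): packet MT2-POTB, bounds from the potential
-/

set_option autoImplicit false

namespace Pool.Agent.Helper63.MT2

open Finset
open Pool.Agent.Helper28.MT2

lemma Lth_top (h k s : ℕ) : Lth h k s s = 2 ^ 29 * h * k := by
  unfold Lth
  simp

lemma Lth_low {h k s l : ℕ} (hl : l < s) :
    Lth h k s l = 2 ^ 29 * h * k * (s * 2 ^ (s - l)) := by
  unfold Lth
  rw [if_pos hl]

lemma usd_zero (u : ℕ → ℕ → ℕ) (l g : ℕ) : usd u 0 l g = 0 := by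
  simp [usd]

lemma act_zero (l g : ℕ) : act 0 l g = 0 := by
  simp [act]

/-- the sum of the powers -/
lemma sum_pow (s : ℕ) : ∑ l ∈ range s, (2 : ℝ) ^ (s - (l + 1)) = 2 ^ s - 1 := by
  have h1 : ∑ l ∈ range s, (2 : ℝ) ^ (s - (l + 1)) = ∑ l ∈ range s, (2 : ℝ) ^ l := by
    rw [← Finset.sum_range_reflect]
    apply Finset.sum_congr rfl
    intro l hl
    rw [mem_range] at hl
    congr 1
    omega
  rw [h1]
  have h2 := geom_sum_eq (x := (2 : ℝ)) (by norm_num) s
  rw [h2]
  norm_num

lemma act_le (j l g : ℕ) : act j l g ≤ 2 ^ l := by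
  unfold act
  have h1 : (range j).filter (fun i => i / 2 ^ l = g) ⊆ Finset.Ico (g * 2 ^ l) ((g + 1) * 2 ^ l) := by
    intro i hi
    rw [mem_filter] at hi
    rw [mem_Ico]
    have hp : 0 < 2 ^ l := pow_pos (by norm_num) l
    obtain ⟨_, hi⟩ := hi
    constructor
    · rw [← hi]
      exact Nat.div_mul_le_self i (2 ^ l)
    · rw [← hi]
      have := Nat.lt_div_mul_add (a := i) hp
      calc i < i / 2 ^ l * 2 ^ l + 2 ^ l := this
        _ = (i / 2 ^ l + 1) * 2 ^ l := by ring
  have h2 := Finset.card_le_card h1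
  rw [Nat.card_Ico] at h2
  have h3 : (g + 1) * 2 ^ l - g * 2 ^ l = 2 ^ l := by
    rw [add_mul, one_mul, Nat.add_sub_cancel_left]
  omega

theorem mt2_potb : G_POTB := by
  intro h k s u j hs hsh hk hj
  have hkpos : 0 < k := by
    have h0 : 0 < h := by omega
    have : 0 < 2 ^ 38 * h * 2 ^ s := by positivity
    omega
  have hkR : (0 : ℝ) < (k : ℝ) := by exact_mod_cast hkpos
  have hR : (2 : ℝ) ^ 38 * h * 2 ^ s ≤ k := by exact_mod_cast hk
  have hjR : (j : ℝ) ≤ 2 ^ s := by exact_mod_cast hj
  have h2s : (0 : ℝ) < 2 ^ s := by positivity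
  have hh1 : (1 : ℝ) ≤ h := by exact_mod_cast (le_trans hs hsh)
  have hs1 : (1 : ℝ) ≤ s := by exact_mod_cast hs
  have hshR : (s : ℝ) ≤ h := by exact_mod_cast hsh
  constructor
  · unfold pot
    have h1 : ∑ l ∈ range s, ∑ g ∈ range (2 ^ (s - (l + 1))),
        Real.exp ((usd u 0 (l + 1) g : ℝ) / k - dl h k s l * act 0 (l + 1) g) =
        ∑ l ∈ range s, (2 : ℝ) ^ (s - (l + 1)) := by
      apply Finset.sum_congr rfl
      intro l _
      have h2 : ∀ g ∈ range (2 ^ (s - (l + 1))),
          Real.exp ((usd u 0 (l + 1) g : ℝ) / k - dl h k s l * act 0 (l + 1) g) = 1 := by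
        intro g _
        rw [usd_zero, act_zero]
        simp
      rw [Finset.sum_congr rfl h2]
      simp
    rw [h1, sum_pow]
    simp
  · intro hpot
    have hE : ∀ l ∈ range s, ∀ g ∈ range (2 ^ (s - (l + 1))),
        0 ≤ Real.exp ((usd u j (l + 1) g : ℝ) / k - dl h k s l * act j (l + 1) g) :=
      fun l _ g _ => (Real.exp_pos _).le
    unfold pot at hpot
    have hLth : (Lth h k s s : ℝ) = 2 ^ 29 * (h : ℝ) * k := by
      rw [Lth_top]
      push_cast
      ring
    rw [hLth] at hpot
    set A : ℝ := ∑ i ∈ range j, (u i (s + 1) : ℝ) with hA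
    have hA0 : 0 ≤ A := Finset.sum_nonneg (fun i _ => by positivity)
    -- the correction term
    have hc : 16 * (2 ^ 29 * (h : ℝ) * k) / k * j = 2 ^ 33 * h * j := by
      field_simp
      norm_num
    rw [hc] at hpot
    have hcorr : 2 ^ 33 * (h : ℝ) * j ≤ k / 32 := by
      have h1 : 2 ^ 33 * (h : ℝ) * j ≤ 2 ^ 33 * (h : ℝ) * 2 ^ s := by gcongr
      have h2 : 2 ^ 33 * (h : ℝ) * 2 ^ s = (2 ^ 38 * h * 2 ^ s) / 32 := by ring
      rw [h2] at h1
      linarith
    constructor
    · intro l hl g hg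
      -- one term of the sum
      have h1 : Real.exp ((usd u j (l + 1) g : ℝ) / k - dl h k s l * act j (l + 1) g) ≤
          ∑ l ∈ range s, ∑ g ∈ range (2 ^ (s - (l + 1))),
            Real.exp ((usd u j (l + 1) g : ℝ) / k - dl h k s l * act j (l + 1) g) := by
        have h2 : Real.exp ((usd u j (l + 1) g : ℝ) / k - dl h k s l * act j (l + 1) g) ≤
            ∑ g ∈ range (2 ^ (s - (l + 1))),
              Real.exp ((usd u j (l + 1) g : ℝ) / k - dl h k s l * act j (l + 1) g) :=
          Finset.single_le_sum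
            (f := fun g => Real.exp ((usd u j (l + 1) g : ℝ) / k - dl h k s l * act j (l + 1) g))
            (fun g hg => hE l (mem_range.mpr hl) g hg) (mem_range.mpr hg)
        refine h2.trans ?_
        exact Finset.single_le_sum
          (f := fun l => ∑ g ∈ range (2 ^ (s - (l + 1))),
              Real.exp ((usd u j (l + 1) g : ℝ) / k - dl h k s l * act j (l + 1) g))
          (fun l hl => Finset.sum_nonneg (fun g hg => hE l hl g hg)) (mem_range.mpr hl)
      have h3 : 32 * 2 ^ s / (k : ℝ) * (A - 2 ^ 33 * h * j) ≥ - 2 ^ s := by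
        have h4 : 32 * 2 ^ s / (k : ℝ) * (A - 2 ^ 33 * h * j) ≥
            32 * 2 ^ s / (k : ℝ) * (- (k / 32)) := by
          apply mul_le_mul_of_nonneg_left _ (by positivity)
          linarith
        have h5 : 32 * 2 ^ s / (k : ℝ) * (- (k / 32)) = - 2 ^ s := by
          field_simp
        rw [h5] at h4
        exact h4
      have h6 : Real.exp ((usd u j (l + 1) g : ℝ) / k - dl h k s l * act j (l + 1) g) ≤
          2 ^ (s + 1) := by
        rw [pow_succ]
        linarith
      have h7 : (usd u j (l + 1) g : ℝ) / k - dl h k s l * act j (l + 1) g ≤ s + 1 := by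
        have h8 : (2 : ℝ) ^ (s + 1) ≤ Real.exp (s + 1) := by
          have h9 : Real.exp ((s : ℝ) + 1) = Real.exp 1 ^ (s + 1) := by
            rw [← Real.exp_nat_mul]
            congr 1
            push_cast
            ring
          rw [h9]
          apply pow_le_pow_left₀ (by norm_num)
          have := Real.add_one_le_exp (1 : ℝ)
          linarith
        exact Real.exp_le_exp.mp (h6.trans h8)
      have h10 : dl h k s l * act j (l + 1) g ≤ s / 8 := by
        have h11 : (act j (l + 1) g : ℝ) ≤ 2 ^ (l + 1) := by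
          exact_mod_cast act_le j (l + 1) g
        have h12 : 0 ≤ dl h k s l := by
          unfold dl
          positivity
        have h13 : dl h k s l * act j (l + 1) g ≤ dl h k s l * 2 ^ (l + 1) :=
          mul_le_mul_of_nonneg_left h11 h12
        refine h13.trans ?_
        unfold dl
        have hLl : (Lth h k s l : ℝ) = 2 ^ 29 * (h : ℝ) * k * (s * 2 ^ (s - l)) := by
          rw [Lth_low hl]
          push_cast
          ring
        rw [hLl]
        have h14 : (2 : ℝ) ^ (s - l) * 2 ^ (l + 1) = 2 * 2 ^ s := by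
          rw [← pow_add, show s - l + (l + 1) = s + 1 by omega, pow_succ]
          ring
        have h15 : 32 * (2 ^ 29 * (h : ℝ) * k * (s * 2 ^ (s - l))) / (k : ℝ) ^ 2 * 2 ^ (l + 1) =
            2 ^ 34 * h * s * (2 ^ (s - l) * 2 ^ (l + 1)) / k := by
          field_simp
          norm_num
        rw [h15, h14, div_le_iff₀ hkR]
        have h16 : 2 ^ 34 * (h : ℝ) * s * (2 * 2 ^ s) = s / 8 * (2 ^ 38 * h * 2 ^ s) := by ring
        rw [h16]
        exact mul_le_mul_of_nonneg_left hR (by positivity)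
      have h17 : (usd u j (l + 1) g : ℝ) / k ≤ 4 * h := by linarith
      rw [div_le_iff₀ hkR] at h17
      exact_mod_cast h17
    · have h1 : 0 ≤ ∑ l ∈ range s, ∑ g ∈ range (2 ^ (s - (l + 1))),
          Real.exp ((usd u j (l + 1) g : ℝ) / k - dl h k s l * act j (l + 1) g) :=
        Finset.sum_nonneg (fun l hl => Finset.sum_nonneg (fun g hg => hE l hl g hg))
      have h2 : 32 * 2 ^ s / (k : ℝ) * (A - 2 ^ 33 * h * j) ≤ 2 ^ s := by linarith
      have h3 : A - 2 ^ 33 * h * j ≤ k / 32 := by
        by_contra hcon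
        push Not at hcon
        have h4 : 32 * 2 ^ s / (k : ℝ) * (k / 32) < 32 * 2 ^ s / (k : ℝ) * (A - 2 ^ 33 * h * j) :=
          mul_lt_mul_of_pos_left hcon (by positivity)
        have h5 : 32 * 2 ^ s / (k : ℝ) * (k / 32) = 2 ^ s := by
          field_simp
        rw [h5] at h4
        linarith
      have h6 : 8 * A ≤ k := by linarith
      have h7 : 8 * ∑ i ∈ range j, (u i (s + 1) : ℝ) ≤ k := h6
      exact_mod_cast h7

end Pool.Agent.Helper63.MT2

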